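import Pool.Agent.H305.Final

/-!
Dynamic restricted assignment of unit tasks with reassignments: for no constants `c` and `C` is
there a `c`-competitive online algorithm which makes at most `C` reassignments per event
(amortized).
-/

namespace Pool.Agent.Results.MP_4bcfd7_lc.NoConstantReassignments

open Pool.Agent.H305

theorem result : ∀ c C : ℝ, ¬ ∃ A : OnlineAlgorithm,
    (∀ (n : ℕ) (σ : List (Event n)), Legal σ → Proper (active σ) (A n σ)) ∧
    (∀ (n : ℕ) (σ : List (Event n)), Legal σ → (cost σ (run A σ) : ℝ) ≤ c * (OPT σ : ℝ)) ∧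
    (∀ (n : ℕ) (σ : List (Event n)), Legal σ →
      (reassignments σ (run A σ) : ℝ) ≤ C * (σ.length : ℝ)) :=
  Pool.Agent.H305.main

end Pool.Agent.Results.MP_4bcfd7_lc.NoConstantReassignments
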