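import Pool.Agent.H305.Final

/-!
The offline strong form: tasks with two eligible machines and optimum one.
-/

namespace Pool.Agent.Results.MP_4bcfd7_lc.OfflineForestBound

open Pool.Agent.H305

theorem result : ∀ c C : ℕ, ∃ (n : ℕ) (σ : List (Event n)), Legal σ ∧ OPT σ ≤ 1 ∧
    (∀ (j : ℕ) (M : Finset (Fin n)), Event.arrive j M ∈ σ → M.card = 2) ∧
    ∀ F : ℕ → Assignment n, (∀ t ≤ σ.length, Proper (active (σ.take t)) (F t)) →
      cost σ F ≤ c → C * σ.length < reassignments σ F :=
  Pool.Agent.H305.strong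

end Pool.Agent.Results.MP_4bcfd7_lc.OfflineForestBound
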